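import Pool.Agent.K9h45.GA.Sim
import Pool.Agent.Results.MP_af3d17_nt.OrdinateGaps
import Pool.Agent.W54.TCF.NT
import Pool.Agent.H382R2.Final0
set_option autoImplicit false

/-!
# Gaps between consecutive ordinates in almost all windows of indices
-/

open Complex Filter Topology Set MeasureTheory
open scoped BigOperators ComplexConjugate

namespace Pool.Agent.K9h45.GA

open H370 H370.A2 H295SI H370.AS TH803CL Pool.Agent.TH822.AA Pool.Agent.TH822.DZ
open Pool.Agent.Results.MP_af3d17_nt Pool.Agent.Results.MP_6bc78b_nt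
open SG (ord NZ)

lemma ogN_eq (t : ℝ) : OrdinateGaps.N 0 t = NZ t := by
  unfold OrdinateGaps.N SG.NZ
  refine finsum_mem_congr ?_ fun s _ => rfl
  ext s
  simp only [OrdinateGaps.zeros, Set.mem_ofPred_eq]
  tauto

lemma gam_eq (n : ℕ) : OrdinateGaps.gam n = ord n := by
  unfold OrdinateGaps.gam SG.ord
  simp only [ogN_eq]

lemma NZ_eq_NN (T : ℝ) : NZ T = NN riemannZeta 0 T := by
  unfold SG.NZ H370.NN
  refine finsum_mem_congr ?_ fun s _ => rfl
  ext s
  simp only [H370.zset, Set.mem_ofPred_eq]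
  tauto

/-- isolated zeros give gaps of normal length -/
lemma normal_of_iso {η e : ℝ} (hη : 0 < η) (he0 : 0 < e) (he2 : e ≤ 1) :
    ∃ T0 : ℝ, 10 ≤ T0 ∧ ∀ t : ℝ, T0 ≤ t → ∀ H c : ℝ, t ^ η ≤ H → H ≤ t →
      (2 - c - 74 * (e / 300) ^ 2 - e / 4) * (NN riemannZeta t (t + H) : ℝ) ≤
        ((isoA riemannZeta t (t + H) (e / 300 / Real.log t)).card : ℝ) →
      (2 - c - e) * (NN riemannZeta t (t + H) : ℝ) ≤
        ((OrdinateGaps.normal t (t + H) (e / 300 * (e / 4) / Real.log t)
          (64 * Real.pi / e / Real.log t)).ncard : ℝ) := by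
  obtain ⟨T2, hT2, hT2'⟩ := OrdinateGaps.N_large hη (16 / e)
  refine ⟨T2, hT2, fun T hT H c hH1 hH2 ha => ?_⟩
  have hpi := Real.pi_pos
  have hT10 : 10 ≤ T := hT2.trans hT
  have hL : 0 < Real.log T := Real.log_pos (by linarith)
  have hH0 : 0 ≤ H := le_trans (by positivity) hH1
  have hδ0 : 0 < e / 300 := by positivity
  have a1 : (2 - c - 74 * (e / 300) ^ 2 - e / 4) * (OrdinateGaps.N T (T + H) : ℝ) ≤
      ((IsolatedSimpleZeros.isolated T (T + H) (e / 300 / Real.log T)).ncard : ℝ) := by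
    rw [OrdinateGaps.N_eq]
    refine ha.trans ?_
    exact_mod_cast IsolatedSimpleZeros.isoA_le (by linarith)
  obtain ⟨a2, a7⟩ := hT2' T hT H hH1 hH2
  have a3 := OrdinateGaps.core hT10 hδ0 (η := e / 300 * (e / 4)) (by positivity) (by nlinarith) a1
  have a0 : ((OrdinateGaps.far T (T + H) (e / 300 * (e / 4) / Real.log T)).ncard : ℝ) ≤
      (OrdinateGaps.wide T (T + H) (e / 300 * (e / 4) / Real.log T)).ncard := by
    exact_mod_cast OrdinateGaps.far_le_wide (by linarith)
  have a8 := OrdinateGaps.wide_le (T₁ := T) (T₂ := T + H) (d := e / 300 * (e / 4) / Real.log T)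
    (D := 64 * Real.pi / e / Real.log T) (by linarith) (by positivity)
  have a4 : e / 300 * (e / 4) / (e / 300) = e / 4 := by field_simp
  rw [a4] at a3
  rw [← OrdinateGaps.N_eq]
  have a5 : (16 : ℝ) ≤ (OrdinateGaps.N T (T + H) : ℝ) * e := by rwa [div_le_iff₀ he0] at a2
  have a6 : 74 * (e / 300) ^ 2 ≤ e / 16 := by nlinarith
  set n := (OrdinateGaps.N T (T + H) : ℝ) with hn
  have hn0 : 0 ≤ n := by positivity
  have a9 : (T + H - T) / (64 * Real.pi / e / Real.log T) ≤ n * e / 16 := by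
    rw [div_le_iff₀ (by positivity)]
    have : n * e / 16 * (64 * Real.pi / e / Real.log T) = 4 * Real.pi * n / Real.log T := by
      field_simp
      ring
    rw [this, le_div_iff₀ hL]
    linarith
  have b1 : (2 - c - e) * n ≤
    (2 - c - 74 * (e / 300) ^ 2 - e / 4 - e / 4 - e / 4) * n :=
    mul_le_mul_of_nonneg_right (by linarith) hn0
  have b2 : (2 - c - 74 * (e / 300) ^ 2 - e / 4 - e / 4 - e / 4) * n =
    (2 - c - 74 * (e / 300) ^ 2 - e / 4 - e / 4) * n - n * e / 4 := by
    ring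
  linarith [a3.1]

/-- the number of `m ∈ (n, n + R]` with `a / log m ≤ γ_{m+1} - γ_m ≤ K / log m` -/
noncomputable def cnt (n R : ℕ) (a K : ℝ) : ℕ :=
  {m : ℕ | n < m ∧ m ≤ n + R ∧ a / Real.log m ≤ ord (m + 1) - ord m ∧
    ord (m + 1) - ord m ≤ K / Real.log m}.ncard

lemma lt_NZ {n : ℕ} (hn : 1 ≤ n) {t : ℝ} (h : t < ord n) : NZ t < n := by
  by_contra hcon
  push Not at hcon
  have := (SG.ord_le_iff hn t).mpr hcon
  linarith

/-- from windows of ordinates to windows of indices -/
lemma window {n R : ℕ} {t H w a K a' K' : ℝ} (hn : 1 ≤ n) (ht1 : 1 ≤ t) (ht : t < ord n)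
    (htw : ord n ≤ t + w) (hH : NN riemannZeta t (t + H) ≤ R)
    (hlog : ∀ m : ℕ, n < m → m ≤ n + R → a' / Real.log m ≤ a ∧ K ≤ K' / Real.log m) :
    (OrdinateGaps.normal t (t + H) a K).ncard ≤
      cnt n R a' K' + NN riemannZeta t (t + w) := by
  classical
  have h0 := lt_NZ hn ht
  have hsub : OrdinateGaps.normal t (t + H) a K ⊆
      {m : ℕ | n < m ∧ m ≤ n + R ∧ a' / Real.log m ≤ ord (m + 1) - ord m ∧
        ord (m + 1) - ord m ≤ K' / Real.log m} ∪ Set.Ioc (NZ t) n := by
    rintro m ⟨h1, h2, h3, h4, h5⟩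
    simp only [gam_eq] at h2 h3 h4 h5
    have h6 := lt_NZ h1 h2
    have h7 := (SG.ord_le_iff h1 _).mp h3
    have h8 := SG.NZ_le_add t (t + H) ht1
    by_cases hmn : m ≤ n
    · right
      exact ⟨h6, hmn⟩
    · left
      push Not at hmn
      have hmR : m ≤ n + R := by omega
      obtain ⟨c1, c2⟩ := hlog m hmn hmR
      exact ⟨hmn, hmR, c1.trans h4, h5.trans c2⟩
  have hfin : ({m : ℕ | n < m ∧ m ≤ n + R ∧ a' / Real.log m ≤ ord (m + 1) - ord m ∧
        ord (m + 1) - ord m ≤ K' / Real.log m}).Finite :=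
    (Set.finite_Iic (n + R)).subset fun m hm => hm.2.1
  have h1 := (Set.ncard_le_ncard hsub (hfin.union (Set.finite_Ioc _ _))).trans
    (Set.ncard_union_le _ _)
  have h2 : (Set.Ioc (NZ t) n).ncard = n - NZ t := by
    rw [← Finset.coe_Ioc, Set.ncard_coe_finset, Nat.card_Ioc]
  have h3 := SG.NZ_le_add t (t + w) ht1
  have h4 : n ≤ NZ (t + w) := (SG.ord_le_iff hn _).mp htw
  rw [h2] at h1
  unfold cnt
  omega

/-- sets that cover no point more than `M` times -/
lemma overlap (E : Finset ℕ) (I : ℕ → Set ℝ) (hI : ∀ n ∈ E, MeasurableSet (I n)) (B : Set ℝ)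
    (hB : ∀ n ∈ E, I n ⊆ B) (M : ℝ)
    (hM : ∀ t : ℝ, ∀ E' : Finset ℕ, E' ⊆ E → (∀ n ∈ E', t ∈ I n) → (E'.card : ℝ) ≤ M) :
    ∑ n ∈ E, volume (I n) ≤ ENNReal.ofReal M * volume B := by
  classical
  have h1 : ∀ n ∈ E, volume (I n) = ∫⁻ t, (I n).indicator (fun _ => (1 : ENNReal)) t := by
    intro n hn
    rw [lintegral_indicator_const (hI n hn), one_mul]
  rw [Finset.sum_congr rfl h1, ← lintegral_finsetSum' E (fun n hn =>
    (measurable_const.indicator (hI n hn)).aemeasurable)]
  calc ∫⁻ t, ∑ n ∈ E, (I n).indicator (fun _ => (1 : ENNReal)) t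
      ≤ ∫⁻ t, (toMeasurable volume B).indicator (fun _ => ENNReal.ofReal M) t := by
        refine lintegral_mono fun t => ?_
        have e1 : ∑ n ∈ E, (I n).indicator (fun _ => (1 : ENNReal)) t =
            ((E.filter (fun n => t ∈ I n)).card : ENNReal) := by
          rw [Finset.card_filter, Nat.cast_sum]
          refine Finset.sum_congr rfl fun n _ => ?_
          by_cases h : t ∈ I n
          · simp [h]
          · simp [h]
        change ∑ n ∈ E, (I n).indicator (fun _ => (1 : ENNReal)) t ≤ _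
        rw [e1]
        by_cases ht : t ∈ toMeasurable volume B
        · rw [Set.indicator_of_mem ht, ← ENNReal.ofReal_natCast]
          apply ENNReal.ofReal_le_ofReal
          exact hM t _ (Finset.filter_subset _ _) fun n hn => (Finset.mem_filter.mp hn).2
        · have : E.filter (fun n => t ∈ I n) = ∅ := by
            rw [Finset.filter_eq_empty_iff]
            intro n hn h
            exact ht (subset_toMeasurable volume B (hB n hn h))
          rw [this, Finset.card_empty, Nat.cast_zero]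
          exact zero_le
    _ = ENNReal.ofReal M * volume B := by
        rw [lintegral_indicator_const (measurableSet_toMeasurable _ _), measure_toMeasurable]

end Pool.Agent.K9h45.GA
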