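import Pool.Agent.K9h45.GA.Num
set_option autoImplicit false

/-!
# Exceptional indices in a dyadic range of ordinates
-/

open Complex Filter Topology Set MeasureTheory
open scoped BigOperators ComplexConjugate

namespace Pool.Agent.K9h45.GA

open H370 H370.A2 H295SI H370.AS TH803CL Pool.Agent.TH822.AA Pool.Agent.TH822.DZ
open Pool.Agent.Results.MP_af3d17_nt Pool.Agent.Results.MP_6bc78b_nt
open SG (ord NZ)

/-- the exceptional indices -/
def Exc (η P a K : ℝ) (n : ℕ) : Prop :=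
  1 ≤ n ∧ ∃ R : ℕ, (n : ℝ) ^ η ≤ R ∧ 100 * R ≤ n ∧ (cnt n R a K : ℝ) < P * R

/-- the exceptional `t ∈ [S, 2S]` -/
def BadS (η x e S : ℝ) : Set ℝ :=
  {t : ℝ | t ∈ Set.Icc S (2 * S) ∧ ∃ H : ℝ, S ^ η ≤ H ∧
      H ≤ S / 8 ∧ ¬ ((2 - cc x - 74 * (e / 300) ^ 2 - e / 4) * (NN riemannZeta t (t + H) : ℝ) ≤
          (isoA riemannZeta t (t + H) (e / 300 / Real.log t)).card)}

lemma log_cond {t T L : ℝ} {m n : ℕ} {e : ℝ} (he0 : 0 < e) (hT : 20 ≤ T) (ht : T / 2 ≤ t)
    (hnT : T ≤ (n : ℝ)) (hmn : n < m) (hLt2 : Real.log t ≤ L) (hLb : L ≤ 2 * Real.log T)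
    (hm : (m : ℝ) ≤ t ^ 4) :
    e / 300 * (e / 4) / 2 / Real.log m ≤ e / 300 * (e / 4) / Real.log t ∧
      64 * Real.pi / e / Real.log t ≤ 4 * (64 * Real.pi / e) / Real.log m := by
  have hLt : 0 < Real.log t := Real.log_pos (by linarith)
  have hpi := Real.pi_pos
  have g1 : (n : ℝ) < m := by exact_mod_cast hmn
  have g3 : Real.log T ≤ Real.log m := Real.log_le_log (by linarith) (by linarith)
  have g4 : Real.log t ≤ 2 * Real.log m := by linarith
  have g0 : 0 < Real.log m := by linarith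
  have g5 : Real.log m ≤ 4 * Real.log t := by
    calc Real.log m ≤ Real.log (t ^ 4) := Real.log_le_log (by linarith) hm
      _ = 4 * Real.log t := by rw [Real.log_pow]; norm_num
  have p1 : 0 < e / 300 * (e / 4) := by positivity
  have p2 : 0 < 64 * Real.pi / e := by positivity
  constructor
  · rw [div_le_div_iff₀ g0 hLt]
    have := mul_le_mul_of_nonneg_left g4 p1.le
    linarith
  · rw [div_le_div_iff₀ hLt g0]
    have := mul_le_mul_of_nonneg_left g5 p2.le
    linarith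

lemma step {η ε x e η1 T w L : ℝ} (hη0 : 0 < η) (hcx0 : 0 ≤ cc x)
    (hx2 : cc x < cc ((1 + η) / 2) + ε / 4) (hη10 : 0 < η1) (he0 : 0 < e) (he1 : e ≤ ε / 32)
    (he2 : e ≤ 1 / 16) (hT20 : 20 ≤ T) (hL : L = Real.log (2 * T)) (hL0 : 0 < L)
    (hLb : L ≤ 2 * Real.log T) (hLT : L ≤ T) (hLt3 : ∀ t : ℝ, T / 2 ≤ t → (1 - e) * L ≤ Real.log t)
    (hw0 : 0 < w) (hwη : w = T ^ η1)
    (hwT : w ≤ T / 2) (htpow : ∀ t : ℝ, T / 2 ≤ t → t ≤ 2 * T → t ^ (η1 / 2) ≤ w)
    (hwcount : ∀ t : ℝ, T / 2 ≤ t → t ≤ 2 * T → (NN riemannZeta t (t + w) : ℝ) ≤ w * L)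
    (hwL : w * L ≤ e * T ^ η) (n1 : T ≤ (NZ T : ℝ))
    (n2 : (NZ (2 * T) : ℝ) ≤ 3 * T * L / (2 * Real.pi))
    (k2 : ∀ t : ℝ, T / 2 ≤ t → ∀ H c : ℝ, t ^ (η1 / 2) ≤ H → H ≤ t →
      (2 - c - 74 * (e / 300) ^ 2 - e / 4) * (NN riemannZeta t (t + H) : ℝ) ≤
        ((isoA riemannZeta t (t + H) (e / 300 / Real.log t)).card : ℝ) →
      (2 - c - e) * (NN riemannZeta t (t + H) : ℝ) ≤
        ((OrdinateGaps.normal t (t + H) (e / 300 * (e / 4) / Real.log t)
          (64 * Real.pi / e / Real.log t)).ncard : ℝ))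
    (k3 : ∀ t : ℝ, T / 2 ≤ t → ∀ H : ℝ, t ^ (η1 / 2) ≤ H → H ≤ t →
      |(NN riemannZeta t (t + H) : ℝ) - H * Real.log t / (2 * Real.pi)| ≤
        e * (H * Real.log t / (2 * Real.pi)))
    {n : ℕ} (hn : Exc η (2 - cc ((1 + η) / 2) - ε) (e / 300 * (e / 4) / 2)
      (4 * (64 * Real.pi / e)) n) (ho1 : T < ord n) (ho2 : ord n ≤ 2 * T) :
    Set.Ico (ord n - w) (ord n) ⊆ BadS η1 x e (T / 2) ∪ BadS η1 x e T := by
  intro t ht
  obtain ⟨hn1, R, hR1, hR2, hR3⟩ := hn
  have htl : T / 2 ≤ t := by linarith only [ht.1, ho1, hwT]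
  have htu : t ≤ 2 * T := by linarith only [ht.2, ho2]
  have hTpos : 0 < T := by linarith only [hT20]
  have hnT : T ≤ (n : ℝ) := by
    have := lt_NZ hn1 ho1
    have h5 : (NZ T : ℝ) < n := by exact_mod_cast this
    linarith only [h5, n1]
  have hnU : (n : ℝ) ≤ NZ (2 * T) := by
    exact_mod_cast (SG.ord_le_iff hn1 _).mp ho2
  have hRT : T ^ η ≤ R := (Real.rpow_le_rpow hTpos.le hnT hη0.le).trans hR1
  have hR0 : (0 : ℝ) < R := lt_of_lt_of_le (Real.rpow_pos_of_pos hTpos _) hRT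
  have hRn : 100 * (R : ℝ) ≤ n := by exact_mod_cast hR2
  have hP0 : 0 < 2 - cc ((1 + η) / 2) - ε := by
    by_contra hcon
    push Not at hcon
    have : (2 - cc ((1 + η) / 2) - ε) * R ≤ 0 := mul_nonpos_of_nonpos_of_nonneg hcon hR0.le
    have h0 : (0 : ℝ) ≤ cnt n R (e / 300 * (e / 4) / 2) (4 * (64 * Real.pi / e)) :=
      Nat.cast_nonneg _
    linarith only [this, h0, hR3]
  obtain ⟨H, hH⟩ : ∃ H : ℝ, H = 2 * Real.pi * R / ((1 + e) * L) := ⟨_, rfl⟩
  obtain ⟨hHlow, hHup⟩ : w ≤ H ∧ H ≤ T / 16 := by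
    rw [hH]
    exact num_H hTpos hL0 hw0 he0 he2 hwL hRT hR0 (hRn.trans (hnU.trans n2))
  have hH0 : 0 < H := by linarith only [hw0, hHlow]
  by_contra hbad
  rw [Set.mem_union, not_or] at hbad
  have hgood : (2 - cc x - 74 * (e / 300) ^ 2 - e / 4) * (NN riemannZeta t (t + H) : ℝ) ≤
      (isoA riemannZeta t (t + H) (e / 300 / Real.log t)).card := by
    by_contra hcon
    rcases le_total t T with h | h
    · refine hbad.1 ⟨⟨htl, by linarith only [h]⟩, H, ?_, by linarith only [hHup], hcon⟩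
      refine le_trans ?_ hHlow
      rw [hwη]
      exact Real.rpow_le_rpow (by linarith only [hTpos]) (by linarith only [hTpos]) hη10.le
    · exact hbad.2 ⟨⟨h, by linarith only [htu]⟩, H, by rw [← hwη]; exact hHlow,
        by linarith only [hHup, hTpos], hcon⟩
  have hHt : H ≤ t := by linarith only [hHup, htl, hTpos]
  have b1 := k2 t htl H (cc x) ((htpow t htl htu).trans hHlow) hHt hgood
  have b2 := k3 t htl H ((htpow t htl htu).trans hHlow) hHt
  rw [abs_le] at b2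
  have hLt2 : Real.log t ≤ L := by
    rw [hL]
    exact Real.log_le_log (by linarith only [htl, hTpos]) htu
  obtain ⟨b3, b4⟩ : (NN riemannZeta t (t + H) : ℝ) ≤ R ∧
      (1 - 3 * e) * (R : ℝ) ≤ NN riemannZeta t (t + H) := by
    have b21 := b2.1
    have b22 := b2.2
    rw [hH] at b21 b22 ⊢
    exact num_R hL0 he0 he2 hR0 hLt2 (hLt3 t htl) b21 b22
  have b3' : NN riemannZeta t (t + H) ≤ R := by exact_mod_cast b3
  have b5 : (NN riemannZeta t (t + w) : ℝ) ≤ e * R := by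
    refine (hwcount t htl htu).trans (hwL.trans ?_)
    exact mul_le_mul_of_nonneg_left hRT he0.le
  have b6 := window (n := n) (R := R) (t := t) (H := H) (w := w)
    (a := e / 300 * (e / 4) / Real.log t) (K := 64 * Real.pi / e / Real.log t)
    (a' := e / 300 * (e / 4) / 2) (K' := 4 * (64 * Real.pi / e)) hn1
    (by linarith only [htl, hT20]) ht.2
    (by linarith only [ht.1]) b3' (by
      intro m hm1 hm2
      have g2 : (m : ℝ) ≤ n + R := by exact_mod_cast hm2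
      exact log_cond he0 hT20 htl hnT hm1 hLt2 hLb
        (num_m g2 hRn (hnU.trans n2) hL0 hLT htl hT20))
  have b7 : ((OrdinateGaps.normal t (t + H) (e / 300 * (e / 4) / Real.log t)
      (64 * Real.pi / e / Real.log t)).ncard : ℝ) ≤
      (cnt n R (e / 300 * (e / 4) / 2) (4 * (64 * Real.pi / e)) : ℝ) +
        NN riemannZeta t (t + w) := by exact_mod_cast b6
  exact num_end he0 he1 hcx0 hx2 hP0 hR0 b1 b7 hR3 b5 b4

/-- few exceptional indices -/
lemma count_E {x e η1 δ' T w L : ℝ} {E : Finset ℕ} {η P a K : ℝ}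
    (hT20 : 20 ≤ T) (hL0 : 0 < L) (hw0 : 0 < w) (hwT : w ≤ T / 2) (hδ1 : δ' < 1)
    (hwcount : ∀ t : ℝ, T / 2 ≤ t → t ≤ 2 * T → (NN riemannZeta t (t + w) : ℝ) ≤ w * L)
    (v1 : volume (BadS η1 x e (T / 2)) ≤ ENNReal.ofReal ((T / 2) ^ (1 - δ')))
    (v2 : volume (BadS η1 x e T) ≤ ENNReal.ofReal (T ^ (1 - δ')))
    (hE : ∀ n ∈ E, Exc η P a K n ∧ T < ord n ∧ ord n ≤ 2 * T)
    (hkey : ∀ n ∈ E, Set.Ico (ord n - w) (ord n) ⊆ BadS η1 x e (T / 2) ∪ BadS η1 x e T) :
    (E.card : ℝ) ≤ L * (2 * T ^ (1 - δ')) := by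
  have hTpos : 0 < T := by linarith only [hT20]
  have hover := overlap E (fun n => Set.Ico (ord n - w) (ord n)) (fun n _ => measurableSet_Ico)
    (BadS η1 x e (T / 2) ∪ BadS η1 x e T) hkey (w * L) (by
      intro t E' hE' ht
      rcases E'.eq_empty_or_nonempty with h0 | ⟨n0, h0⟩
      · rw [h0, Finset.card_empty, Nat.cast_zero]
        positivity
      · obtain ⟨_, ho1, ho2⟩ := hE n0 (hE' h0)
        have ht0 := ht n0 h0
        have htl : T / 2 ≤ t := by linarith only [ht0.1, ho1, hwT]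
        have htu : t ≤ 2 * T := by linarith only [ht0.2, ho2]
        refine le_trans ?_ (hwcount t htl htu)
        have hsub : E' ⊆ Finset.Ioc (NZ t) (NZ (t + w)) := by
          intro m hm
          obtain ⟨⟨hm1, _⟩, _, _⟩ := hE m (hE' hm)
          rw [Finset.mem_Ioc]
          have hmt := ht m hm
          exact ⟨lt_NZ hm1 hmt.2, (SG.ord_le_iff hm1 _).mp (by linarith only [hmt.1])⟩
        have h5 := Finset.card_le_card hsub
        rw [Nat.card_Ioc] at h5
        have h6 := SG.NZ_le_add t (t + w) (by linarith only [htl, hT20])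
        exact_mod_cast (show E'.card ≤ NN riemannZeta t (t + w) by omega))
  have hvol : volume (BadS η1 x e (T / 2) ∪ BadS η1 x e T) ≤
      ENNReal.ofReal (2 * T ^ (1 - δ')) := by
    refine (measure_union_le _ _).trans ?_
    calc volume (BadS η1 x e (T / 2)) + volume (BadS η1 x e T)
        ≤ ENNReal.ofReal ((T / 2) ^ (1 - δ')) + ENNReal.ofReal (T ^ (1 - δ')) := add_le_add v1 v2
      _ = ENNReal.ofReal ((T / 2) ^ (1 - δ') + T ^ (1 - δ')) := by
          rw [ENNReal.ofReal_add (by positivity) (by positivity)]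
      _ ≤ ENNReal.ofReal (2 * T ^ (1 - δ')) := by
          apply ENNReal.ofReal_le_ofReal
          have : (T / 2) ^ (1 - δ') ≤ T ^ (1 - δ') :=
            Real.rpow_le_rpow (by linarith only [hTpos]) (by linarith only [hTpos])
              (by linarith only [hδ1])
          linarith only [this]
  have hsum : ∑ n ∈ E, volume (Set.Ico (ord n - w) (ord n)) = ENNReal.ofReal (E.card * w) := by
    simp only [Real.volume_Ico, sub_sub_cancel, Finset.sum_const, nsmul_eq_mul]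
    rw [ENNReal.ofReal_mul (Nat.cast_nonneg _), ENNReal.ofReal_natCast]
  rw [hsum] at hover
  have hfin : ENNReal.ofReal (E.card * w) ≤ ENNReal.ofReal (w * L * (2 * T ^ (1 - δ'))) := by
    refine hover.trans ?_
    rw [ENNReal.ofReal_mul (by positivity : 0 ≤ w * L)]
    gcongr
  have hfin2 := (ENNReal.ofReal_le_ofReal_iff (by positivity)).mp hfin
  have : (E.card : ℝ) * w ≤ (L * (2 * T ^ (1 - δ'))) * w := by linarith only [hfin2]
  exact le_of_mul_le_mul_right this hw0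

end Pool.Agent.K9h45.GA
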