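import Pool.Agent.K9h45.GA.Idx2
set_option autoImplicit false

/-!
# Exceptional indices: assembly
-/

open Complex Filter Topology Set MeasureTheory
open scoped BigOperators ComplexConjugate

namespace Pool.Agent.K9h45.GA

open H370 H370.A2 H295SI H370.AS TH803CL Pool.Agent.TH822.AA Pool.Agent.TH822.DZ
open Pool.Agent.Results.MP_af3d17_nt Pool.Agent.Results.MP_6bc78b_nt
open SG (ord NZ)

lemma choose_x {η ε : ℝ} (hη0 : 0 < η) (hη1 : η < 1) (hε : 0 < ε) :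
    ∃ x : ℝ, 1 / 2 < x ∧ x < (1 + η) / 2 ∧ cc x < cc ((1 + η) / 2) + ε / 4 := by
  have hc := cc_cont ((1 + η) / 2) (by linarith) (by linarith)
  have h1 : ∀ᶠ x : ℝ in 𝓝[<] ((1 + η) / 2), (1 / 2 < x ∧ x < (1 + η) / 2) ∧
      cc x < cc ((1 + η) / 2) + ε / 4 := by
    have e1 : ∀ᶠ x : ℝ in 𝓝[<] ((1 + η) / 2), 1 / 2 < x :=
      nhdsWithin_le_nhds (lt_mem_nhds (by linarith))
    have e2 : ∀ᶠ x : ℝ in 𝓝[<] ((1 + η) / 2), x < (1 + η) / 2 := self_mem_nhdsWithin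
    have e3 : ∀ᶠ x : ℝ in 𝓝[<] ((1 + η) / 2), cc x < cc ((1 + η) / 2) + ε / 4 :=
      nhdsWithin_le_nhds (hc.eventually (gt_mem_nhds (by linarith)))
    exact (e1.and e2).and e3
  obtain ⟨x, ⟨hx0, hx1⟩, hx2⟩ := h1.exists
  exact ⟨x, hx0, hx1, hx2⟩

/-- elementary inequalities for large `T` -/
lemma large {η η1 e d : ℝ} (hη1 : 0 < η1) (h1 : η1 < η) (h2 : η < 1) (he : 0 < e) (hd : 0 < d) :
    ∃ T0 : ℝ, 20 ≤ T0 ∧ ∀ T : ℝ, T0 ≤ T →
      T ^ η1 ≤ T / 2 ∧ (∀ t : ℝ, T / 2 ≤ t → t ≤ 2 * T → t ^ (η1 / 2) ≤ T ^ η1) ∧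
      T ^ η1 * Real.log (2 * T) ≤ e * T ^ η ∧ Real.log (2 * T) ≤ 2 * Real.log T ∧
      Real.log (2 * T) ≤ T ∧
      (∀ t : ℝ, T / 2 ≤ t → (1 - e) * Real.log (2 * T) ≤ Real.log t) ∧
      2 * Real.log (2 * T) ≤ T ^ d := by
  have ev1 : ∀ᶠ T : ℝ in atTop, 2 ≤ T ^ (η1 / 2) :=
    (tendsto_rpow_atTop (by positivity)).eventually_ge_atTop 2
  have ev2 := (isLittleO_log_rpow_rpow_atTop (1 : ℝ) (show 0 < η - η1 by linarith)).bound
    (c := e / 2) (by positivity)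
  have ev3 : ∀ᶠ T : ℝ in atTop, Real.log 4 / e ≤ Real.log T :=
    Real.tendsto_log_atTop.eventually_ge_atTop _
  have ev4 := (isLittleO_log_rpow_rpow_atTop (1 : ℝ) (show (0 : ℝ) < 1 by norm_num)).bound
    (c := 1 / 2) (by positivity)
  have ev5 : ∀ᶠ T : ℝ in atTop, 2 ≤ T ^ (1 - η1) :=
    (tendsto_rpow_atTop (by linarith)).eventually_ge_atTop 2
  have ev6 := (isLittleO_log_rpow_rpow_atTop (1 : ℝ) hd).bound
    (c := 1 / 4) (by positivity)
  obtain ⟨T5, hT5⟩ := (ev1.and (ev2.and (ev3.and (ev4.and (ev5.and ev6))))).exists_forall_of_atTop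
  refine ⟨max 20 T5, le_max_left _ _, fun T hT => ?_⟩
  have hT20 : 20 ≤ T := (le_max_left _ _).trans hT
  have hTpos : 0 < T := by linarith
  obtain ⟨f1, f2, f3, f4, f5, f6⟩ := hT5 T ((le_max_right _ _).trans hT)
  have hL1 : 0 < Real.log T := Real.log_pos (by linarith)
  have hnn : ∀ y : ℝ, 0 ≤ T ^ y := fun y => Real.rpow_nonneg hTpos.le _
  rw [Real.rpow_one, Real.norm_of_nonneg hL1.le, Real.norm_of_nonneg (hnn _)] at f2 f4 f6
  rw [Real.rpow_one] at f4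
  have hL2a : Real.log T ≤ Real.log (2 * T) := Real.log_le_log hTpos (by linarith)
  have hL2b : Real.log (2 * T) ≤ 2 * Real.log T := by
    have : Real.log (2 * T) ≤ Real.log (T ^ 2) := Real.log_le_log (by linarith) (by nlinarith)
    rwa [Real.log_pow, Nat.cast_ofNat] at this
  have hw0 : 0 < T ^ η1 := Real.rpow_pos_of_pos hTpos _
  refine ⟨?_, ?_, ?_, hL2b, by linarith, ?_, by linarith⟩
  · have : T = T ^ (1 - η1) * T ^ η1 := by
      rw [← Real.rpow_add hTpos]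
      rw [show 1 - η1 + η1 = 1 by ring, Real.rpow_one]
    have h3 : 2 * T ^ η1 ≤ T ^ (1 - η1) * T ^ η1 := mul_le_mul_of_nonneg_right f5 hw0.le
    linarith
  · intro t ht1 ht2
    calc t ^ (η1 / 2) ≤ (2 * T) ^ (η1 / 2) := Real.rpow_le_rpow (by linarith) ht2 (by positivity)
      _ = 2 ^ (η1 / 2) * T ^ (η1 / 2) := Real.mul_rpow (by norm_num) hTpos.le
      _ ≤ 2 * T ^ (η1 / 2) := by
          gcongr
          calc (2 : ℝ) ^ (η1 / 2) ≤ 2 ^ (1 : ℝ) :=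
                Real.rpow_le_rpow_of_exponent_le (by norm_num) (by linarith)
            _ = 2 := Real.rpow_one 2
      _ ≤ T ^ (η1 / 2) * T ^ (η1 / 2) := by
          gcongr
      _ = T ^ η1 := by rw [← Real.rpow_add hTpos]; congr 1; ring
  · have h3 : Real.log (2 * T) ≤ e * T ^ (η - η1) := by linarith
    have hTη : T ^ η = T ^ (η - η1) * T ^ η1 := by
      rw [← Real.rpow_add hTpos]; congr 1; ring
    calc T ^ η1 * Real.log (2 * T) ≤ T ^ η1 * (e * T ^ (η - η1)) :=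
          mul_le_mul_of_nonneg_left h3 hw0.le
      _ = e * T ^ η := by rw [hTη]; ring
  · intro t ht
    have c1 : Real.log (2 * T / 4) ≤ Real.log t := Real.log_le_log (by linarith) (by linarith)
    rw [Real.log_div (by positivity) (by norm_num)] at c1
    rw [div_le_iff₀ he] at f3
    have : Real.log T * e ≤ Real.log (2 * T) * e := mul_le_mul_of_nonneg_right hL2a he.le
    linarith

theorem dyadic {η ε : ℝ} (hη0 : 0 < η) (hη1 : η < 1) (hε : 0 < ε) :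
    ∃ a K δ T0 : ℝ, 0 < a ∧ 0 < K ∧ 0 < δ ∧ δ < 1 ∧ 10 ≤ T0 ∧ ∀ T : ℝ, T0 ≤ T →
      ∀ E : Finset ℕ, (∀ n ∈ E, Exc η (2 - cc ((1 + η) / 2) - ε) a K n ∧ T < ord n ∧
        ord n ≤ 2 * T) → (E.card : ℝ) ≤ T ^ (1 - δ) := by
  have hpi := Real.pi_pos
  obtain ⟨x, hx0, hx1, hx2⟩ := choose_x hη0 hη1 hε
  have hcx0 := cc_nonneg x (by linarith) (by linarith)
  obtain ⟨η1, hη1d⟩ : ∃ η1 : ℝ, η1 = 2 * x - 1 := ⟨_, rfl⟩
  have hη10 : 0 < η1 := by linarith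
  have hη11 : η1 < η := by linarith
  obtain ⟨e, he0, he1, he2⟩ : ∃ e : ℝ, 0 < e ∧ e ≤ ε / 32 ∧ e ≤ 1 / 16 :=
    ⟨min (ε / 32) (1 / 16), lt_min (by positivity) (by norm_num), min_le_left _ _,
      min_le_right _ _⟩
  obtain ⟨δ', hδ0, hδ1, T1, hT1, k1⟩ := all_iso good_zeta iso_zeta η1 x (e / 4) (e / 300) hη10
    (by linarith) (by linarith) (by linarith) (by positivity) (by positivity) (by linarith)
  obtain ⟨T2, hT2, k2⟩ := normal_of_iso (η := η1 / 2) (e := e) (by positivity) he0 (by linarith)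
  obtain ⟨T3, hT3, k3⟩ := cnt_asym good_zeta (η := η1 / 2) (e := e) (by positivity) he0
  obtain ⟨T4, hT4, k4⟩ := NZ_size
  obtain ⟨T5, hT5, k5⟩ := large hη10 hη11 hη1 he0 (show 0 < δ' / 2 by positivity)
  obtain ⟨T6, m1, m2, m3, m4, m5⟩ : ∃ T6 : ℝ, T1 ≤ T6 ∧ T2 ≤ T6 ∧ T3 ≤ T6 ∧ T4 ≤ T6 ∧ T5 ≤ T6 :=
    ⟨max T1 (max T2 (max T3 (max T4 T5))), by simp, by simp, by simp, by simp, by simp⟩
  refine ⟨e / 300 * (e / 4) / 2, 4 * (64 * Real.pi / e), δ' / 2, 2 * T6, by positivity,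
    by positivity, by positivity, by linarith, by linarith, fun T hT E hE => ?_⟩
  have hT20 : 20 ≤ T := by linarith
  obtain ⟨g1, g2, g3, g4, g5, g6, g7⟩ := k5 T (by linarith)
  obtain ⟨n1, n2⟩ := k4 T (by linarith)
  have hTpos : 0 < T := by linarith
  obtain ⟨L, hL⟩ : ∃ L : ℝ, L = Real.log (2 * T) := ⟨_, rfl⟩
  obtain ⟨w, hw⟩ : ∃ w : ℝ, w = T ^ η1 := ⟨_, rfl⟩
  have hL0 : 0 < L := by rw [hL]; exact Real.log_pos (by linarith)
  have hw0 : 0 < w := by rw [hw]; exact Real.rpow_pos_of_pos hTpos _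
  rw [← hL] at g3 g4 g5 g6 g7 n2
  rw [← hw] at g1 g2 g3
  have hwcount : ∀ t : ℝ, T / 2 ≤ t → t ≤ 2 * T → (NN riemannZeta t (t + w) : ℝ) ≤ w * L := by
    intro t ht1 ht2
    have a1 := k3 t (by linarith) w (g2 t ht1 ht2) (by linarith)
    rw [abs_le] at a1
    exact num_N hL0 hw0 he2 (Real.log_pos (by linarith))
      (by rw [hL]; exact Real.log_le_log (by linarith) ht2) a1.2
  have hkey : ∀ n ∈ E, Set.Ico (ord n - w) (ord n) ⊆ BadS η1 x e (T / 2) ∪ BadS η1 x e T := by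
    intro n hn
    obtain ⟨h1, h2, h3⟩ := hE n hn
    exact step hη0 hcx0 hx2 hη10 he0 he1 he2 hT20 hL hL0 g4 g5 g6 hw0 hw g1 g2 hwcount g3 n1 n2
      (fun t ht H c h1 h2 h3 => k2 t (by linarith) H c h1 h2 h3)
      (fun t ht H h1 h2 => k3 t (by linarith) H h1 h2) h1 h2 h3
  have hfin := count_E hT20 hL0 hw0 g1 hδ1 hwcount (k1 (T / 2) (by linarith)) (k1 T (by linarith))
    hE hkey
  calc (E.card : ℝ) ≤ L * (2 * T ^ (1 - δ')) := hfin
    _ = (2 * L) * T ^ (1 - δ') := by ring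
    _ ≤ T ^ (δ' / 2) * T ^ (1 - δ') := by gcongr
    _ = T ^ (1 - δ' / 2) := by
        rw [← Real.rpow_add hTpos]; congr 1; ring

/-- all exceptional indices up to `N` -/
theorem up_to {η ε : ℝ} (hη0 : 0 < η) (hη1 : η < 1) (hε : 0 < ε) :
    ∃ a K δ : ℝ, 0 < a ∧ 0 < K ∧ 0 < δ ∧ ∃ N0 : ℕ, ∀ N : ℕ, N0 ≤ N →
      ∀ E : Finset ℕ, (∀ n ∈ E, Exc η (2 - cc ((1 + η) / 2) - ε) a K n ∧ n ≤ N) →
        (E.card : ℝ) ≤ (N : ℝ) ^ (1 - δ) := by
  classical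
  obtain ⟨a, K, δ, T0, ha, hK, hδ0, hδ1, hT0, h⟩ := dyadic hη0 hη1 hε
  obtain ⟨T4, hT4, k4⟩ := NZ_size
  -- bound by dyadic ranges
  have key : ∀ k : ℕ, ∀ E : Finset ℕ, (∀ n ∈ E, Exc η (2 - cc ((1 + η) / 2) - ε) a K n ∧
      ord n ≤ 2 ^ k * T0) → (E.card : ℝ) ≤ NZ T0 + k * (2 ^ k * T0) ^ (1 - δ) := by
    intro k
    induction k with
    | zero =>
      intro E hE
      have hsub : E ⊆ Finset.Ioc 0 (NZ T0) := by
        intro n hn
        obtain ⟨⟨h1, _⟩, h2⟩ := hE n hn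
        rw [pow_zero, one_mul] at h2
        rw [Finset.mem_Ioc]
        exact ⟨by omega, (SG.ord_le_iff h1 _).mp h2⟩
      have h5 := Finset.card_le_card hsub
      rw [Nat.card_Ioc] at h5
      have h6 : (E.card : ℝ) ≤ NZ T0 := by exact_mod_cast h5
      simpa using h6
    | succ k ih =>
      intro E hE
      have e1 := ih (E.filter (fun n => ord n ≤ 2 ^ k * T0)) (by
        intro n hn
        rw [Finset.mem_filter] at hn
        exact ⟨(hE n hn.1).1, hn.2⟩)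
      have h2k : (1 : ℝ) ≤ 2 ^ k := one_le_pow₀ (by norm_num)
      have hT0k : T0 ≤ 2 ^ k * T0 := le_mul_of_one_le_left (by linarith) h2k
      have e2 := h (2 ^ k * T0) hT0k (E.filter (fun n => ¬ ord n ≤ 2 ^ k * T0)) (by
        intro n hn
        rw [Finset.mem_filter] at hn
        refine ⟨(hE n hn.1).1, by linarith [not_le.mp hn.2], ?_⟩
        have := (hE n hn.1).2
        rw [pow_succ] at this
        linarith)
      have e3 : E.card = (E.filter (fun n => ord n ≤ 2 ^ k * T0)).card +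
          (E.filter (fun n => ¬ ord n ≤ 2 ^ k * T0)).card :=
        (Finset.card_filter_add_card_filter_not _).symm
      have e4 : (2 ^ k * T0) ^ (1 - δ) ≤ (2 ^ (k + 1) * T0) ^ (1 - δ) := by
        refine Real.rpow_le_rpow (by positivity) ?_ (by linarith)
        rw [pow_succ]
        nlinarith
      have e5 : (0 : ℝ) ≤ (2 ^ (k + 1) * T0) ^ (1 - δ) := by positivity
      have e6 : (k : ℝ) * (2 ^ k * T0) ^ (1 - δ) ≤ k * (2 ^ (k + 1) * T0) ^ (1 - δ) :=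
        mul_le_mul_of_nonneg_left e4 (Nat.cast_nonneg _)
      rw [e3]
      push_cast
      linarith
  -- choice of parameters
  have hd : 0 < δ / 2 := by positivity
  have ev1 := (isLittleO_log_rpow_rpow_atTop (1 : ℝ) hd).bound
    (c := 1 / 16) (by positivity)
  have ev2 : ∀ᶠ T : ℝ in atTop, 2 * (NZ T0 : ℝ) ≤ T ^ (1 - δ / 2) :=
    (tendsto_rpow_atTop (by linarith)).eventually_ge_atTop _
  obtain ⟨T5, hT5⟩ := (ev1.and ev2).exists_forall_of_atTop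
  obtain ⟨N0, hN0⟩ := exists_nat_ge (max T4 (max T5 (max T0 10)))
  refine ⟨a, K, δ / 2, ha, hK, hd, N0, fun N hN E hE => ?_⟩
  have hNr : (max T4 (max T5 (max T0 10))) ≤ (N : ℝ) := hN0.trans (by exact_mod_cast hN)
  have hN4 : T4 ≤ (N : ℝ) := (le_max_left _ _).trans hNr
  have hN5 : T5 ≤ (N : ℝ) := ((le_max_left _ _).trans (le_max_right _ _)).trans hNr
  have hN1 : T0 ≤ (N : ℝ) := ((le_max_left _ _).trans ((le_max_right _ _).trans
    (le_max_right _ _))).trans hNr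
  have hN10 : 10 ≤ (N : ℝ) := by linarith
  have hNpos : (0 : ℝ) < N := by linarith
  obtain ⟨k, hk1, hk2⟩ := exists_nat_pow_near (x := (N : ℝ) / T0) (y := 2)
    (by rw [le_div_iff₀ (by linarith)]; linarith) (by norm_num)
  rw [le_div_iff₀ (by linarith)] at hk1
  rw [div_lt_iff₀ (by linarith)] at hk2
  have hE2 := key (k + 1) E (by
    intro n hn
    obtain ⟨h1, h2⟩ := hE n hn
    refine ⟨h1, ?_⟩
    have h3 : (NZ (N : ℝ) : ℝ) ≥ N := (k4 N hN4).1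
    have h4 : n ≤ NZ (N : ℝ) := by
      have : N ≤ NZ (N : ℝ) := by exact_mod_cast h3
      omega
    exact ((SG.ord_le_iff h1.1 _).mpr h4).trans hk2.le)
  obtain ⟨f1, f2⟩ := hT5 N hN5
  have hLN : 0 < Real.log N := Real.log_pos (by linarith)
  rw [Real.rpow_one, Real.norm_of_nonneg hLN.le,
    Real.norm_of_nonneg (Real.rpow_nonneg hNpos.le _)] at f1
  have hk3 : ((k + 1 : ℕ) : ℝ) ≤ 4 * Real.log N := by
    have g1 : (2 : ℝ) ^ k ≤ N := by
      have : (2 : ℝ) ^ k ≤ 2 ^ k * T0 := le_mul_of_one_le_right (by positivity) (by linarith)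
      linarith
    have g2 := Real.log_le_log (by positivity) g1
    rw [Real.log_pow] at g2
    have g3 : (0.6931471803 : ℝ) < Real.log 2 := Real.log_two_gt_d9
    have g4 : (k : ℝ) * 0.6931471803 ≤ k * Real.log 2 :=
      mul_le_mul_of_nonneg_left g3.le (Nat.cast_nonneg _)
    have g5 : 1 ≤ Real.log N := by
      rw [Real.le_log_iff_exp_le hNpos]
      have := Real.exp_one_lt_d9
      linarith
    push_cast
    have g6 : (0 : ℝ) ≤ k := Nat.cast_nonneg _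
    linarith
  have hk4 : ((2 : ℝ) ^ (k + 1) * T0) ^ (1 - δ) ≤ 2 * (N : ℝ) ^ (1 - δ) := by
    calc ((2 : ℝ) ^ (k + 1) * T0) ^ (1 - δ) ≤ (2 * (N : ℝ)) ^ (1 - δ) := by
          refine Real.rpow_le_rpow (by positivity) ?_ (by linarith)
          rw [pow_succ]
          linarith
      _ = 2 ^ (1 - δ) * (N : ℝ) ^ (1 - δ) := Real.mul_rpow (by norm_num) hNpos.le
      _ ≤ 2 * (N : ℝ) ^ (1 - δ) := by
          gcongr
          calc (2 : ℝ) ^ (1 - δ) ≤ 2 ^ (1 : ℝ) :=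
                Real.rpow_le_rpow_of_exponent_le (by norm_num) (by linarith)
            _ = 2 := Real.rpow_one 2
  have hNe : (N : ℝ) ^ (1 - δ / 2) = (N : ℝ) ^ (δ / 2) * (N : ℝ) ^ (1 - δ) := by
    rw [← Real.rpow_add hNpos]; congr 1; ring
  have hNδ : 0 ≤ (N : ℝ) ^ (1 - δ) := Real.rpow_nonneg hNpos.le _
  have g7 : ((k + 1 : ℕ) : ℝ) * ((2 : ℝ) ^ (k + 1) * T0) ^ (1 - δ) ≤
      (N : ℝ) ^ (1 - δ / 2) / 2 := by
    calc ((k + 1 : ℕ) : ℝ) * ((2 : ℝ) ^ (k + 1) * T0) ^ (1 - δ)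
        ≤ (4 * Real.log N) * (2 * (N : ℝ) ^ (1 - δ)) := by gcongr
      _ = (8 * Real.log N) * (N : ℝ) ^ (1 - δ) := by ring
      _ ≤ ((N : ℝ) ^ (δ / 2) / 2) * (N : ℝ) ^ (1 - δ) := by
          gcongr
          linarith
      _ = (N : ℝ) ^ (1 - δ / 2) / 2 := by rw [hNe]; ring
  linarith

end Pool.Agent.K9h45.GA
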