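import Pool.Agent.TH822.AA.Main
import Pool.Agent.TH803.CL.Win
set_option autoImplicit false

/-!
# Isolated simple critical zeros in almost all short intervals
-/

open Complex Filter Topology Set MeasureTheory
open scoped BigOperators ComplexConjugate

namespace Pool.Agent.K9h45.GA

open H370 H370.A2 H295SI H370.AS TH803CL Pool.Agent.TH822.AA Pool.Agent.TH822.DZ

/-- isolated zeros of the window `(t, t + H]` are isolated, but for those near the ends -/
lemma isoZ_sub {F : ℂ → ℂ} (hF : GoodL F) {t H d : ℝ} (ht : 1 ≤ t) (hd1 : d ≤ 1) :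
    isoZ F t (t + H) d ⊆ isoA F t (t + H) d ∪
      (Zf F t (t + H) \ Zf F (t + 2) (t + H - 2)) := by
  classical
  intro s hs
  unfold isoZ at hs
  rw [Finset.mem_filter] at hs
  obtain ⟨hs1, hs2, hs3, hs4⟩ := hs
  rw [Finset.mem_union]
  by_cases hin : s ∈ Zf F (t + 2) (t + H - 2)
  · left
    unfold isoA
    rw [Finset.mem_filter]
    refine ⟨hs1, hs2, hs3, fun s' h0 hre hre' hne => ?_⟩
    by_contra hlt
    push Not at hlt
    have h1 := (Complex.abs_im_le_norm (s - s')).trans_lt hlt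
    rw [Complex.sub_im] at h1
    have h2 := abs_lt.1 (h1.trans_le hd1)
    have h3 := (mem_Zf hF (by linarith : 1 ≤ t + 2)).mp hin
    have h4 : s' ∈ Zf F t (t + H) := (mem_Zf hF ht).mpr
      ⟨hre, hre', by linarith [h3.2.2.1], by linarith [h3.2.2.2.1], h0⟩
    have := hs4 s' h4 hne
    linarith
  · right
    exact Finset.mem_sdiff.2 ⟨hs1, hin⟩

/-- the statement for almost all intervals `(t, t + H]` -/
def AlmostIso (F : ℂ → ℂ) : Prop := ∀ η lam ε δ : ℝ, 0 < η → η < 1 → 0 < lam → 2 * lam ≤ 1 + η →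
  0 < ε → 0 < δ → δ ≤ 1 / 10 → ∃ δ' : ℝ, 0 < δ' ∧ ∃ T0 : ℝ, 10 ≤ T0 ∧ ∀ T : ℝ, T0 ≤ T → ∀ H : ℝ,
    T ^ η ≤ H → H ≤ T / 8 →
    volume {t : ℝ | t ∈ Set.Icc T (2 * T) ∧
      ¬ ((2 - cc lam - 74 * δ ^ 2 - ε) * (NN F t (t + H) : ℝ) ≤
          (isoA F t (t + H) (δ / Real.log t)).card)} ≤
      ENNReal.ofReal (T ^ (1 - δ'))

theorem almost_iso {F : ℂ → ℂ} (hF : GoodL F) (hB : ∀ τ : ℝ, 0 < τ → τ ≤ 1 → BZr F τ) :
    AlmostIso F := by
  intro η0 lam ε dl hη0 hη1 hlam hgap hε hdl0 hdl1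
  have hlam1 : lam ≤ 1 := by linarith
  have hc := cc_cont lam hlam hlam1
  have h1 : ∀ᶠ x : ℝ in 𝓝[<] lam, (0 < x ∧ x < lam) ∧ cc x < cc lam + ε / 4 := by
    have e1 : ∀ᶠ x : ℝ in 𝓝[<] lam, 0 < x := nhdsWithin_le_nhds (lt_mem_nhds hlam)
    have e2 : ∀ᶠ x : ℝ in 𝓝[<] lam, x < lam := self_mem_nhdsWithin
    have e3 : ∀ᶠ x : ℝ in 𝓝[<] lam, cc x < cc lam + ε / 4 :=
      nhdsWithin_le_nhds (hc.eventually (gt_mem_nhds (by linarith)))
    exact (e1.and e2).and e3
  obtain ⟨x, ⟨hx0, hx1⟩, hx2⟩ := h1.exists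
  have hxle : x ≤ 1 := by linarith
  have hR := H793SI.convS _ (s_pos x hx0) (s_le x hxle)
  have hW := H255SI.winS _ (s_pos x hx0) (s_le x hxle)
  have hK := H218SI3.kSqS _ (s_pos x hx0) (s_le x hxle)
  have hc0 := cc_nonneg x hx0 hxle
  obtain ⟨a, ha, hld⟩ := hF.ld
  set c : ℝ := cc x with hcdef
  set η : ℝ := min (1 / 2) (ε / (8 * (c + ε + 1))) with hη
  have hη00 : 0 < η := lt_min (by norm_num) (by positivity)
  have hηh : η ≤ 1 / 2 := min_le_left _ _
  have hηe : η * (8 * (c + ε + 1)) ≤ ε := by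
    have : η ≤ ε / (8 * (c + ε + 1)) := min_le_right _ _
    rwa [le_div_iff₀ (by positivity)] at this
  set τ : ℝ := η0 / 4 with hτ
  have hτ0 : 0 < τ := by positivity
  obtain ⟨δ, hδ, T0, hT0, h⟩ := almost_up hR hF ha hld hτ0.le (hB τ hτ0 (by linarith)) η0 x η
    hη0 hη1 hx0 (by linarith) (by nlinarith) hη00
  obtain ⟨C, hC, hends⟩ := ends2 hF
  obtain ⟨C5, hC5, hNN⟩ := H370.SI.nn_short hF
  -- `C log (2 T)` is small compared with `ε T ^ η0 log T`
  have ev1 : ∀ᶠ T : ℝ in atTop, 8 * Real.pi * C ≤ ε * T ^ η0 / 4 := by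
    have := (tendsto_rpow_atTop hη0).eventually_ge_atTop (32 * Real.pi * C / ε)
    filter_upwards [this] with T hT
    rw [div_le_iff₀ hε] at hT
    linarith
  have ev2 : ∀ᶠ T : ℝ in atTop, 6 ≤ T ^ η0 := (tendsto_rpow_atTop hη0).eventually_ge_atTop 6
  have ev3 : ∀ᶠ T : ℝ in atTop, 10 ≤ Real.log T := Real.tendsto_log_atTop.eventually_ge_atTop 10
  obtain ⟨T1, hT1⟩ := (ev1.and (ev2.and ev3)).exists_forall_of_atTop
  refine ⟨δ, hδ, max T0 T1, hT0.trans (le_max_left _ _), fun T hT H hH1 hH2 =>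
    (measure_mono ?_).trans (h T ((le_max_left _ _).trans hT) H hH1 hH2)⟩
  have hTT0 : T0 ≤ T := (le_max_left _ _).trans hT
  obtain ⟨e1, e2, e3⟩ := hT1 T ((le_max_right _ _).trans hT)
  have hT10 : 10 ≤ T := hT0.trans hTT0
  have hTpos : 0 < T := by linarith
  rintro t ⟨ht1, ht2⟩
  refine ⟨ht1, fun hcon => ht2 ?_⟩
  obtain ⟨h3, h4⟩ := hcon
  have hHpos : 0 < H := lt_of_lt_of_le (Real.rpow_pos_of_pos hTpos _) hH1
  have hL : 0 < Real.log T := by linarith
  have hU : 1 ≤ t := by linarith [ht1.1]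
  have hpi := Real.pi_pos
  have hLt : Real.log T ≤ Real.log t := Real.log_le_log hTpos ht1.1
  have hLt2 : Real.log t ≤ 2 * Real.log T := by
    have : Real.log t ≤ Real.log (T ^ 2) := Real.log_le_log (by linarith) (by nlinarith [ht1.2])
    rwa [Real.log_pow, Nat.cast_ofNat] at this
  set M : ℝ := H * Real.log T / (2 * Real.pi) with hM
  have hM0 : 0 < M := by positivity
  have hPS : PS (RS (Real.sqrt 2 * x)) F t (t + H) (x * Real.log T) =
      QQG (gS (Real.sqrt 2 * x)) F (x * Real.log T) t (t + H) := by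
    rw [H228SI.qqJJ (gS (Real.sqrt 2 * x)) _ hW hR hK F hF t (t + H) hU (x * Real.log T)]
    rfl
  rw [ccR_eq x hx0 hxle, ← hcdef, hPS] at h4
  obtain ⟨hNNl, hNNu⟩ := abs_le.mp h3
  have hiso := iso_zeros hF (A := t) (B := t + H) hU hW (Λ := x * Real.log T) (L := Real.log t)
    (δ := dl) (by positivity) (by nlinarith) (by linarith) hdl0 (by linarith)
  have hd1 : dl / Real.log t ≤ 1 := by
    rw [div_le_one (by linarith)]
    linarith
  have hsub := isoZ_sub hF (t := t) (H := H) (d := dl / Real.log t) hU hd1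
  have he := hends t (by linarith [ht1.1]) H (by linarith) (by linarith [ht1.1])
  have hdiff := card_diff hF (A := t) (B := t + H) (A' := t + 2) (B' := t + H - 2)
    (by linarith) (by linarith) (by linarith)
  have hcard : ((isoZ F t (t + H) (dl / Real.log t)).card : ℝ) ≤
      (isoA F t (t + H) (dl / Real.log t)).card +
        ((Zf F t (t + H) \ Zf F (t + 2) (t + H - 2)).card : ℝ) := by
    exact_mod_cast (Finset.card_le_card hsub).trans (Finset.card_union_le _ _)
  set N : ℝ := (NN F t (t + H) : ℝ) with hN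
  have hN0 : (0 : ℝ) ≤ N := Nat.cast_nonneg _
  have hNM : M * (1 - η) ≤ N := by linarith
  have hkey : M * (c + η) ≤ (c + ε / 4) * N := by
    have h5 : c + η ≤ (c + ε / 4) * (1 - η) := by nlinarith
    calc M * (c + η) ≤ M * ((c + ε / 4) * (1 - η)) := by gcongr
      _ = (c + ε / 4) * (M * (1 - η)) := by ring
      _ ≤ _ := by gcongr
  have hcN : (c + ε / 4) * N ≤ (cc lam + ε / 2) * N := by
    apply mul_le_mul_of_nonneg_right _ hN0
    linarith
  have hends2 : C * Real.log t ≤ ε / 2 * N := by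
    have g1 : C * Real.log t ≤ 2 * C * Real.log T := by nlinarith
    have g2 : M / 2 ≤ N := by nlinarith
    have g3 : 2 * C * Real.log T ≤ ε / 4 * M := by
      rw [hM]
      have g4 : 8 * Real.pi * C ≤ ε * H / 4 := by
        have : ε * T ^ η0 ≤ ε * H := by gcongr
        linarith
      have g5 : ε / 4 * (H * Real.log T / (2 * Real.pi)) = (ε * H / 4) * (Real.log T / (2 * Real.pi)) := by
        ring
      rw [g5]
      calc 2 * C * Real.log T ≤ (8 * Real.pi * C) * (Real.log T / (2 * Real.pi)) := by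
            have : (8 * Real.pi * C) * (Real.log T / (2 * Real.pi)) = 4 * C * Real.log T := by
              field_simp
              ring
            rw [this]
            have : 0 ≤ C * Real.log T := by positivity
            linarith
        _ ≤ _ := by gcongr
    nlinarith
  nlinarith [hiso, hcard, hdiff, he]

theorem iso_zeta : AlmostIso riemannZeta := almost_iso good_zeta bz_z

/-- every primitive character, the principal one included -/
theorem iso_prim {q : ℕ} [NeZero q] (χ : DirichletCharacter ℂ q) (hχ : χ.IsPrimitive) :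
    AlmostIso (DirichletCharacter.LFunction χ) := by
  rcases eq_or_ne χ 1 with h | h
  · have hq : q = 1 := by
      rw [h, DirichletCharacter.IsPrimitive, DirichletCharacter.conductor_one] at hχ
      exact hχ.symm
    subst hq
    rw [DirichletCharacter.LFunction_modOne_eq]
    exact iso_zeta
  · exact almost_iso (good_dirichlet χ hχ) (bz_d χ hχ h)

end Pool.Agent.K9h45.GA
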