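import Pool.Agent.K9h45.GA.Idx
set_option autoImplicit false

/-!
# Exceptional indices in a dyadic range of ordinates
-/

open Complex Filter Topology Set MeasureTheory
open scoped BigOperators ComplexConjugate

namespace Pool.Agent.K9h45.GA

open H370 H370.A2 H295SI H370.AS TH803CL Pool.Agent.TH822.AA Pool.Agent.TH822.DZ
open Pool.Agent.Results.MP_af3d17_nt Pool.Agent.Results.MP_6bc78b_nt
open SG (ord NZ)

lemma NZ_size : ∃ T0 : ℝ, 10 ≤ T0 ∧ ∀ T : ℝ, T0 ≤ T → T ≤ (NZ T : ℝ) ∧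
    (NZ (2 * T) : ℝ) ≤ 3 * T * Real.log (2 * T) / (2 * Real.pi) := by
  obtain ⟨T0, hT0, h⟩ := Pool.Agent.W54.TCF.NT_asymp' (1 / 2) (by norm_num)
  have ev : ∀ᶠ T : ℝ in atTop, 4 * Real.pi ≤ Real.log T :=
    Real.tendsto_log_atTop.eventually_ge_atTop _
  obtain ⟨T1, hT1⟩ := ev.exists_forall_of_atTop
  have hpi := Real.pi_pos
  refine ⟨max T0 T1, hT0.trans (le_max_left _ _), fun T hT => ?_⟩
  have hTa : T0 ≤ T := (le_max_left _ _).trans hT
  have hTb := hT1 T ((le_max_right _ _).trans hT)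
  obtain ⟨a1, _⟩ := h T hTa
  obtain ⟨_, a2⟩ := h (2 * T) (by linarith)
  rw [← NZ_eq_NN] at a1 a2
  have hT0' : 0 < T := by linarith
  constructor
  · have e1 : (1 - 1 / 2) * (T / (2 * Real.pi) * Real.log T) = T * Real.log T / (4 * Real.pi) := by
      field_simp
      ring
    rw [e1] at a1
    refine le_trans ?_ a1
    rw [le_div_iff₀ (by positivity)]
    nlinarith
  · have e1 : (1 + 1 / 2) * (2 * T / (2 * Real.pi) * Real.log (2 * T)) =
        3 * T * Real.log (2 * T) / (2 * Real.pi) := by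
      field_simp
      ring
    rw [e1] at a2
    exact a2


lemma num_H {T L w e R Y : ℝ} (hT : 0 < T) (hL : 0 < L) (hw : 0 < w) (he0 : 0 < e)
    (he2 : e ≤ 1 / 16) (hwL : w * L ≤ e * Y) (hY : Y ≤ R) (hR : 0 < R)
    (h : 100 * R ≤ 3 * T * L / (2 * Real.pi)) :
    w ≤ 2 * Real.pi * R / ((1 + e) * L) ∧ 2 * Real.pi * R / ((1 + e) * L) ≤ T / 16 := by
  have hpi := Real.pi_pos
  have h3 : (3 : ℝ) < Real.pi := Real.pi_gt_three
  constructor
  · rw [le_div_iff₀ (by positivity)]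
    have b0 : 0 < w * L := by positivity
    have b1 : w * ((1 + e) * L) = (1 + e) * (w * L) := by ring
    rw [b1]
    have b2 : (1 + e) * (w * L) ≤ 2 * (w * L) := mul_le_mul_of_nonneg_right (by linarith) b0.le
    have b3 : e * Y ≤ R := by
      have c1 : e * Y ≤ e * R := mul_le_mul_of_nonneg_left hY he0.le
      have c2 : e * R ≤ 1 * R := mul_le_mul_of_nonneg_right (by linarith) hR.le
      linarith
    have b4 : 3 * R ≤ Real.pi * R := mul_le_mul_of_nonneg_right h3.le hR.le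
    linarith
  · rw [div_le_iff₀ (by positivity)]
    rw [le_div_iff₀ (by positivity)] at h
    have b2 : 0 < T * L := by positivity
    have b3 : 0 < e * (T * L) := by positivity
    have b4 : T / 16 * ((1 + e) * L) = (T * L + e * (T * L)) / 16 := by ring
    rw [b4]
    have b5 : 100 * R * (2 * Real.pi) = 100 * (2 * Real.pi * R) := by ring
    have b6 : 3 * T * L = 3 * (T * L) := by ring
    linarith

lemma num_N {L w e lt : ℝ} (hL : 0 < L) (hw : 0 < w) (he2 : e ≤ 1 / 16)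
    (hlt : 0 < lt) (h2 : lt ≤ L) {N : ℝ}
    (h : N - w * lt / (2 * Real.pi) ≤ e * (w * lt / (2 * Real.pi))) : N ≤ w * L := by
  have h3 : (3 : ℝ) < Real.pi := Real.pi_gt_three
  have hpi := Real.pi_pos
  have h4 : w * lt ≤ w * L := mul_le_mul_of_nonneg_left h2 hw.le
  have h5 : w * lt / (2 * Real.pi) ≤ w * L / 6 := by
    have : w * lt / (2 * Real.pi) ≤ w * lt / 6 := by
      apply div_le_div_of_nonneg_left (by positivity) (by norm_num) (by linarith)
    linarith
  have h6 : 0 ≤ w * lt / (2 * Real.pi) := by positivity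
  have h7 : e * (w * lt / (2 * Real.pi)) ≤ 1 / 16 * (w * lt / (2 * Real.pi)) :=
    mul_le_mul_of_nonneg_right he2 h6
  have h8 : 0 < w * L := by positivity
  linarith

lemma num_R {L e lt R N : ℝ} (hL : 0 < L) (he0 : 0 < e) (he2 : e ≤ 1 / 16) (hR : 0 < R)
    (h2 : lt ≤ L) (h3 : (1 - e) * L ≤ lt)
    (h4 : -(e * (2 * Real.pi * R / ((1 + e) * L) * lt / (2 * Real.pi))) ≤
      N - 2 * Real.pi * R / ((1 + e) * L) * lt / (2 * Real.pi))
    (h5 : N - 2 * Real.pi * R / ((1 + e) * L) * lt / (2 * Real.pi) ≤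
      e * (2 * Real.pi * R / ((1 + e) * L) * lt / (2 * Real.pi))) :
    N ≤ R ∧ (1 - 3 * e) * R ≤ N := by
  have hpi := Real.pi_pos
  have hHL : 2 * Real.pi * R / ((1 + e) * L) * lt / (2 * Real.pi) = R * (lt / L) / (1 + e) := by
    field_simp
  rw [hHL] at h4 h5
  set q := lt / L with hq
  have hq1 : q ≤ 1 := by rw [hq, div_le_one hL]; exact h2
  have hq2 : 1 - e ≤ q := by rw [hq, le_div_iff₀ hL]; exact h3
  have e1 : (1 + e) * (R * q / (1 + e)) = R * q := by field_simp
  set y := R * q / (1 + e) with hy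
  constructor
  · have : N ≤ (1 + e) * y := by linarith
    rw [e1] at this
    have h6 : R * q ≤ R * 1 := mul_le_mul_of_nonneg_left hq1 hR.le
    linarith
  · have h6 : (1 - e) * y ≤ N := by linarith
    refine le_trans ?_ h6
    have h7 : (1 - e) * R ≤ R * q := by
      have := mul_le_mul_of_nonneg_left hq2 hR.le
      linarith
    rw [hy, ← mul_div_assoc, le_div_iff₀ (by linarith)]
    have h8 : (1 - e) * ((1 - e) * R) ≤ (1 - e) * (R * q) :=
      mul_le_mul_of_nonneg_left h7 (by linarith)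
    have h9 : 0 < e * e * R := by positivity
    linarith [show (1 - 3 * e) * R * (1 + e) = (1 - e) * ((1 - e) * R) - 4 * (e * e * R) by ring]

lemma num_m {m n R T L t : ℝ} (hm : m ≤ n + R) (hR : 100 * R ≤ n)
    (hn : n ≤ 3 * T * L / (2 * Real.pi)) (hL0 : 0 < L) (hL : L ≤ T) (ht : T / 2 ≤ t)
    (hT : 20 ≤ T) : m ≤ t ^ 4 := by
  have h3 : (3 : ℝ) < Real.pi := Real.pi_gt_three
  have hpi := Real.pi_pos
  have hTL : 0 < T * L := by positivity
  have q3 : 3 * T * L / (2 * Real.pi) ≤ T * L / 2 := by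
    rw [div_le_div_iff₀ (by positivity) (by norm_num)]
    have : 3 * (T * L) ≤ Real.pi * (T * L) := mul_le_mul_of_nonneg_right h3.le hTL.le
    linarith
  have q4 : T * L ≤ T * T := mul_le_mul_of_nonneg_left hL (by linarith)
  have q6 : T * T ≤ (2 * t) * (2 * t) := mul_le_mul (by linarith) (by linarith) (by linarith)
    (by linarith)
  have q7 : (2 * t) * (2 * t) ≤ t ^ 4 := by
    have h10 : 10 ≤ t := by linarith
    have : (2 * t) * (2 * t) = 4 * t ^ 2 := by ring
    rw [this, show t ^ 4 = t ^ 2 * t ^ 2 by ring]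
    refine mul_le_mul_of_nonneg_right ?_ (by positivity)
    nlinarith
  linarith

lemma num_end {c cη ε e R N C A W : ℝ} (he0 : 0 < e) (he1 : e ≤ ε / 32)
    (hc0 : 0 ≤ c) (hc : c < cη + ε / 4) (hP : 0 < 2 - cη - ε) (hR : 0 < R)
    (h1 : (2 - c - e) * N ≤ A) (h2 : A ≤ C + W) (h3 : C < (2 - cη - ε) * R) (h4 : W ≤ e * R)
    (h5 : (1 - 3 * e) * R ≤ N) : False := by
  have d1 : 0 < 2 - c - e := by linarith
  have d2 : (2 - c - e) * ((1 - 3 * e) * R) ≤ (2 - c - e) * N :=
    mul_le_mul_of_nonneg_left h5 d1.le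
  have d3 : (2 - c - e) * ((1 - 3 * e) * R) = (2 - c - e) * R - 3 * e * (2 - c - e) * R := by ring
  have d4 : 3 * e * (2 - c - e) * R ≤ 3 * e * 2 * R := by
    refine mul_le_mul_of_nonneg_right ?_ hR.le
    exact mul_le_mul_of_nonneg_left (by linarith) (by linarith)
  have d5 : ((2 - cη - ε) + e) * R < ((2 - c - e) - 6 * e) * R :=
    mul_lt_mul_of_pos_right (by linarith) hR
  linarith


end Pool.Agent.K9h45.GA
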