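import Pool.Agent.K9h45.GA.Iso
set_option autoImplicit false

/-!
# Isolated simple critical zeros in almost all short intervals, all lengths simultaneously
-/

open Complex Filter Topology Set MeasureTheory
open scoped BigOperators ComplexConjugate

namespace Pool.Agent.K9h45.GA

open H370 H370.A2 H295SI H370.AS TH803CL TH803UC TH803TW

/-- the number of zeros in short windows -/
lemma cnt_asym {F : ℂ → ℂ} (hF : GoodL F) {η e : ℝ} (hη : 0 < η) (he : 0 < e) :
    ∃ T0 : ℝ, 10 ≤ T0 ∧ ∀ t : ℝ, T0 ≤ t → ∀ H : ℝ, t ^ η ≤ H → H ≤ t →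
      |(NN F t (t + H) : ℝ) - H * Real.log t / (2 * Real.pi)| ≤
        e * (H * Real.log t / (2 * Real.pi)) := by
  obtain ⟨C, hC, h⟩ := H370.SI.nn_short hF
  have hpi := Real.pi_pos
  have ev1 : ∀ᶠ T : ℝ in atTop, 4 * Real.pi * C / e ≤ Real.log T :=
    Real.tendsto_log_atTop.eventually_ge_atTop _
  have ev2 := (isLittleO_log_rpow_rpow_atTop (1 : ℝ) hη).bound
    (c := e / (4 * Real.pi * C)) (by positivity)
  have ev3 : ∀ᶠ T : ℝ in atTop, 3 ≤ T ^ η := (tendsto_rpow_atTop hη).eventually_ge_atTop 3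
  obtain ⟨T0, hT0⟩ := eventually_atTop.mp (ev1.and (ev2.and (ev3.and (eventually_ge_atTop 10))))
  refine ⟨max T0 10, le_max_right _ _, fun t ht H hH1 hH2 => ?_⟩
  obtain ⟨h1, h2, h3, h4⟩ := hT0 t ((le_max_left _ _).trans ht)
  have hL : 0 < Real.log t := Real.log_pos (by linarith)
  rw [Real.rpow_one, Real.norm_of_nonneg hL.le,
    Real.norm_of_nonneg (Real.rpow_nonneg (by linarith) _)] at h2
  have h5 := h t h4 t (t + H) le_rfl (by linarith) (by linarith)
  rw [show t + H - t = H by ring] at h5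
  refine h5.trans ?_
  have hH0 : 0 < H := by linarith
  rw [div_le_iff₀ he] at h1
  have h6 : C * H ≤ e / 2 * (H * Real.log t / (2 * Real.pi)) := by
    have : e / 2 * (H * Real.log t / (2 * Real.pi)) = (Real.log t * e) * H / (4 * Real.pi) := by
      field_simp
      ring
    rw [this, le_div_iff₀ (by positivity)]
    nlinarith
  have h7 : C * Real.log t ^ 2 ≤ e / 2 * (H * Real.log t / (2 * Real.pi)) := by
    have h8 : C * Real.log t * (4 * Real.pi) ≤ e * H := by
      have : Real.log t ≤ e / (4 * Real.pi * C) * H := h2.trans (by gcongr)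
      calc C * Real.log t * (4 * Real.pi) ≤ C * (e / (4 * Real.pi * C) * H) * (4 * Real.pi) := by
            gcongr
        _ = e * H := by field_simp
    have : e / 2 * (H * Real.log t / (2 * Real.pi)) = (e * H) * Real.log t / (4 * Real.pi) := by
      field_simp
      ring
    rw [this, le_div_iff₀ (by positivity)]
    nlinarith
  rw [mul_add]
  linarith

lemma isoA_mono {F : ℂ → ℂ} (hF : GoodL F) {t H H' d : ℝ} (ht : 1 ≤ t) (h : H ≤ H') :
    isoA F t (t + H) d ⊆ isoA F t (t + H') d := by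
  classical
  intro s hs
  unfold isoA at hs ⊢
  rw [Finset.mem_filter] at hs ⊢
  exact ⟨Zf_sub hF ht le_rfl (by linarith) hs.1, hs.2⟩

/-- the statement for almost all `t` and all intervals `(t, t + H]` simultaneously -/
def AllIso (F : ℂ → ℂ) : Prop := ∀ η lam ε δ : ℝ, 0 < η → η < 1 → 0 < lam → 2 * lam ≤ 1 + η →
  0 < ε → 0 < δ → δ ≤ 1 / 10 → ∃ δ' : ℝ, 0 < δ' ∧ δ' < 1 ∧ ∃ T0 : ℝ, 10 ≤ T0 ∧ ∀ T : ℝ, T0 ≤ T →
    volume {t : ℝ | t ∈ Set.Icc T (2 * T) ∧ ∃ H : ℝ, T ^ η ≤ H ∧ H ≤ T / 8 ∧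
      ¬ ((2 - cc lam - 74 * δ ^ 2 - ε) * (NN F t (t + H) : ℝ) ≤
          (isoA F t (t + H) (δ / Real.log t)).card)} ≤
      ENNReal.ofReal (T ^ (1 - δ'))

theorem all_iso {F : ℂ → ℂ} (hF : GoodL F) (hA : AlmostIso F) : AllIso F := by
  intro η lam ε δ hη0 hη1 hlam hgap hε hδ0 hδ1
  have hlam1 : lam ≤ 1 := by linarith
  have hc0 := cc_nonneg lam hlam hlam1
  set e : ℝ := min (ε / 16) (1 / 16) with he
  have he0 : 0 < e := lt_min (by positivity) (by norm_num)
  have he1 : e ≤ ε / 16 := min_le_left _ _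
  have he2 : e ≤ 1 / 16 := min_le_right _ _
  obtain ⟨δ', hδ', T1, hT1, h1⟩ := hA η lam (ε / 2) δ hη0 hη1 hlam hgap (by positivity) hδ0 hδ1
  obtain ⟨T2, hT2, h2⟩ := cnt_asym hF (η := η / 2) (e := e) (by positivity) he0
  have hpi := Real.pi_pos
  have hle : 0 < Real.log (1 + e) := Real.log_pos (by linarith)
  -- number of steps
  set d1 : ℝ := min (δ' / 2) (1 / 2) with hd1
  have hd10 : 0 < d1 := lt_min (by positivity) (by norm_num)
  have hd11 : d1 ≤ δ' / 2 := min_le_left _ _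
  have hd12 : d1 ≤ 1 / 2 := min_le_right _ _
  have ev1 := (isLittleO_log_rpow_rpow_atTop (1 : ℝ) hd10).bound
    (c := Real.log (1 + e) / 2) (by positivity)
  have ev2 : ∀ᶠ T : ℝ in atTop, 4 ≤ T ^ d1 := (tendsto_rpow_atTop hd10).eventually_ge_atTop 4
  have ev3 : ∀ᶠ T : ℝ in atTop, 2 ≤ T ^ (η / 2) :=
    (tendsto_rpow_atTop (by positivity)).eventually_ge_atTop 2
  obtain ⟨T3, hT3⟩ := (ev1.and (ev2.and ev3)).exists_forall_of_atTop
  refine ⟨d1, hd10, by linarith, max (max T1 T2) T3, hT1.trans ((le_max_left _ _).trans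
    (le_max_left _ _)), fun T hT => ?_⟩
  have hTT1 : T1 ≤ T := ((le_max_left _ _).trans (le_max_left _ _)).trans hT
  have hTT2 : T2 ≤ T := ((le_max_right _ _).trans (le_max_left _ _)).trans hT
  obtain ⟨e1, e2, e3⟩ := hT3 T ((le_max_right _ _).trans hT)
  have hT10 : 10 ≤ T := hT1.trans hTT1
  have hTpos : 0 < T := by linarith
  have hL : 0 < Real.log T := Real.log_pos (by linarith)
  rw [Real.rpow_one, Real.norm_of_nonneg hL.le,
    Real.norm_of_nonneg (Real.rpow_nonneg hTpos.le _)] at e1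
  have hTη : 0 < T ^ η := Real.rpow_pos_of_pos hTpos _
  set J : ℕ := ⌊Real.log T / Real.log (1 + e)⌋₊ with hJ
  set Hj : ℕ → ℝ := fun j => T ^ η * (1 + e) ^ j with hHj
  set Bad : ℝ → Set ℝ := fun H => {t : ℝ | t ∈ Set.Icc T (2 * T) ∧
      ¬ ((2 - cc lam - 74 * δ ^ 2 - ε / 2) * (NN F t (t + H) : ℝ) ≤
          (isoA F t (t + H) (δ / Real.log t)).card)} with hBad
  have hsub : {t : ℝ | t ∈ Set.Icc T (2 * T) ∧ ∃ H : ℝ, T ^ η ≤ H ∧ H ≤ T / 8 ∧
      ¬ ((2 - cc lam - 74 * δ ^ 2 - ε) * (NN F t (t + H) : ℝ) ≤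
          (isoA F t (t + H) (δ / Real.log t)).card)} ⊆
      ⋃ j ∈ (Finset.range (J + 1)).filter (fun j => Hj j ≤ T / 8), Bad (Hj j) := by
    rintro t ⟨ht, H, hH1, hH2, hfail⟩
    obtain ⟨j, hj1, hj2⟩ := exists_nat_pow_near (x := H / T ^ η) (y := 1 + e)
      (by rw [le_div_iff₀ hTη]; linarith) (by linarith)
    rw [le_div_iff₀ hTη] at hj1
    rw [div_lt_iff₀ hTη] at hj2
    have hj1' : Hj j ≤ H := by rw [hHj]; linarith
    have hj2' : H ≤ (1 + e) * Hj j := by
      rw [hHj]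
      have : (1 + e) * (T ^ η * (1 + e) ^ j) = (1 + e) ^ (j + 1) * T ^ η := by ring
      rw [this]
      exact hj2.le
    have hTj : T ^ η ≤ Hj j := by
      rw [hHj]
      have : 1 ≤ (1 + e) ^ j := one_le_pow₀ (by linarith)
      nlinarith
    have hjJ : j ≤ J := by
      rw [hJ]
      apply Nat.le_floor
      rw [le_div_iff₀ hle, ← Real.log_pow]
      refine Real.log_le_log (by positivity) ?_
      have h3 : (1 + e) ^ j ≤ (1 + e) ^ j * T ^ η := by
        have : 1 ≤ T ^ η := Real.one_le_rpow (by linarith) hη0.le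
        have h4 : 0 ≤ (1 + e) ^ j := by positivity
        nlinarith
      linarith
    simp only [Set.mem_iUnion, Finset.mem_filter, Finset.mem_range]
    refine ⟨j, ⟨by omega, by linarith⟩, ht, fun hgood => hfail ?_⟩
    have ht10 : 10 ≤ t := by linarith [ht.1]
    have ht1 : 1 ≤ t := by linarith
    have htη : t ^ (η / 2) ≤ T ^ η := by
      calc t ^ (η / 2) ≤ (2 * T) ^ (η / 2) := Real.rpow_le_rpow (by linarith) ht.2 (by positivity)
        _ = 2 ^ (η / 2) * T ^ (η / 2) := Real.mul_rpow (by norm_num) hTpos.le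
        _ ≤ 2 * T ^ (η / 2) := by
            gcongr
            calc (2 : ℝ) ^ (η / 2) ≤ 2 ^ (1 : ℝ) :=
                  Real.rpow_le_rpow_of_exponent_le (by norm_num) (by linarith)
              _ = 2 := Real.rpow_one 2
        _ ≤ T ^ (η / 2) * T ^ (η / 2) := by gcongr
        _ = T ^ η := by rw [← Real.rpow_add hTpos]; congr 1; ring
    have a1 := h2 t (by linarith [ht.1]) (Hj j) (by linarith) (by linarith [ht.1])
    have a2 := h2 t (by linarith [ht.1]) H (by linarith) (by linarith [ht.1])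
    rw [abs_le] at a1 a2
    have hLt : 0 < Real.log t := Real.log_pos (by linarith)
    set κ : ℝ := Real.log t / (2 * Real.pi) with hκ
    have hκ0 : 0 < κ := by positivity
    have b1 : Hj j * Real.log t / (2 * Real.pi) = Hj j * κ := by rw [hκ]; ring
    have b2 : H * Real.log t / (2 * Real.pi) = H * κ := by rw [hκ]; ring
    rw [b1] at a1
    rw [b2] at a2
    have hHj0 : 0 < Hj j := by linarith
    have c1 : (1 - e) * (Hj j * κ) ≤ (NN F t (t + Hj j) : ℝ) := by linarith [a1.1]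
    have c2 : (NN F t (t + H) : ℝ) ≤ (1 + e) * ((1 + e) * (Hj j * κ)) := by
      have : H * κ ≤ (1 + e) * (Hj j * κ) := by nlinarith
      nlinarith [a2.2]
    have c3 : (NN F t (t + H) : ℝ) ≤ (1 + 4 * e) * (NN F t (t + Hj j) : ℝ) := by
      have h5 : (1 + e) * (1 + e) ≤ (1 + 4 * e) * (1 - e) := by nlinarith
      have h6 : 0 < Hj j * κ := by positivity
      nlinarith
    have hcard : ((isoA F t (t + Hj j) (δ / Real.log t)).card : ℝ) ≤
        (isoA F t (t + H) (δ / Real.log t)).card := by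
      exact_mod_cast Finset.card_le_card (isoA_mono hF ht1 hj1')
    have hN0 : (0 : ℝ) ≤ (NN F t (t + Hj j) : ℝ) := Nat.cast_nonneg _
    have hN1 : (0 : ℝ) ≤ (NN F t (t + H) : ℝ) := Nat.cast_nonneg _
    rcases le_total (2 - cc lam - 74 * δ ^ 2 - ε) 0 with hP | hP
    · have : (2 - cc lam - 74 * δ ^ 2 - ε) * (NN F t (t + H) : ℝ) ≤ 0 :=
        mul_nonpos_of_nonpos_of_nonneg hP hN1
      have h7 : (0 : ℝ) ≤ (isoA F t (t + H) (δ / Real.log t)).card := Nat.cast_nonneg _
      linarith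
    · have h8 : (2 - cc lam - 74 * δ ^ 2 - ε) * (1 + 4 * e) ≤ 2 - cc lam - 74 * δ ^ 2 - ε / 2 := by
        nlinarith [sq_nonneg δ]
      calc (2 - cc lam - 74 * δ ^ 2 - ε) * (NN F t (t + H) : ℝ)
          ≤ (2 - cc lam - 74 * δ ^ 2 - ε) * ((1 + 4 * e) * (NN F t (t + Hj j) : ℝ)) := by gcongr
        _ = ((2 - cc lam - 74 * δ ^ 2 - ε) * (1 + 4 * e)) * (NN F t (t + Hj j) : ℝ) := by ring
        _ ≤ (2 - cc lam - 74 * δ ^ 2 - ε / 2) * (NN F t (t + Hj j) : ℝ) := by gcongr
        _ ≤ (isoA F t (t + Hj j) (δ / Real.log t)).card := hgood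
        _ ≤ _ := hcard
  refine (measure_mono hsub).trans ((measure_biUnion_finset_le _ _).trans ?_)
  have hbd : ∀ j ∈ (Finset.range (J + 1)).filter (fun j => Hj j ≤ T / 8),
      volume (Bad (Hj j)) ≤ ENNReal.ofReal (T ^ (1 - δ')) := by
    intro j hj
    rw [Finset.mem_filter] at hj
    refine h1 T hTT1 (Hj j) ?_ hj.2
    rw [hHj]
    have : 1 ≤ (1 + e) ^ j := one_le_pow₀ (by linarith)
    nlinarith
  refine (Finset.sum_le_sum hbd).trans ?_
  rw [Finset.sum_const, nsmul_eq_mul]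
  have hcardJ : (((Finset.range (J + 1)).filter (fun j => Hj j ≤ T / 8)).card : ℝ) ≤
      Real.log T / Real.log (1 + e) + 1 := by
    have h3 : ((Finset.range (J + 1)).filter (fun j => Hj j ≤ T / 8)).card ≤ J + 1 := by
      refine (Finset.card_filter_le _ _).trans ?_
      rw [Finset.card_range]
    have h4 : (J : ℝ) ≤ Real.log T / Real.log (1 + e) := Nat.floor_le (by positivity)
    have h5 : (((Finset.range (J + 1)).filter (fun j => Hj j ≤ T / 8)).card : ℝ) ≤ J + 1 := by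
      exact_mod_cast h3
    linarith
  rw [← ENNReal.ofReal_natCast, ← ENNReal.ofReal_mul (Nat.cast_nonneg _)]
  apply ENNReal.ofReal_le_ofReal
  have h6 : Real.log T / Real.log (1 + e) + 1 ≤ T ^ d1 := by
    have : Real.log T / Real.log (1 + e) ≤ T ^ d1 / 2 := by
      rw [div_le_iff₀ hle]
      linarith
    linarith
  calc (((Finset.range (J + 1)).filter (fun j => Hj j ≤ T / 8)).card : ℝ) * T ^ (1 - δ')
      ≤ T ^ d1 * T ^ (1 - δ') := by
        gcongr
        exact hcardJ.trans h6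
    _ = T ^ (d1 + (1 - δ')) := by rw [← Real.rpow_add hTpos]
    _ ≤ T ^ (1 - d1) := Real.rpow_le_rpow_of_exponent_le (by linarith) (by linarith)

end Pool.Agent.K9h45.GA
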